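import Pool.Agent.U797.NL.Spec
import Pool.Agent.U797.LV.Emb

set_option autoImplicit false
set_option linter.unusedSectionVars false

/-!
# Project NL (helper797), package EMB (helper750): induced trees from rich sets

Adapted from `Pool.Agent.U797.LV.Ext` and `Pool.Agent.U797.LV.Emb` (helper797).
-/

namespace Pool.Agent.U750.NL

open Finset
open scoped Classical
open Pool.Agent.U797.LV (nb mem_nb sum_inter_nb few non_nb mul_few order)
open Pool.Agent.U797.NL (Rich S_R S_EMB)

variable {V : Type} [Fintype V]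

theorem rich_sub {G : SimpleGraph V} {b B : ℝ} {i : ℕ} {v : V} {C : Finset V}
    (h : Rich G b i B v C) : C ⊆ nb G v := by
  cases i with
  | zero => exact h
  | succ i => exact h.1

/-- an induced copy of the tree with the vertices `0, ..., j - 1` and the parents `p`, together with
rich sets of candidates for further children -/
structure Cf (G : SimpleGraph V) (b : ℝ) (p : ℕ → ℕ) (h : ℕ) (B δ : ℝ)
    (j : ℕ) (φ : ℕ → V) (C : ℕ → Finset V) (l : ℕ → ℕ) : Prop where
  ne : ∀ i < j, (C i).Nonempty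
  rich : ∀ i < j, Rich G b (l i) B (φ i) (C i)
  hl : ∀ i < j, h ≤ l i + i
  f2 : ∀ i < j, ∀ i' < j, i ≠ i' → ((C i ∩ nb G (φ i')).card : ℝ) ≤ δ * (C i).card
  f3 : ∀ i < j, ∀ i' < j, i ≠ i' →
    ∑ x ∈ C i, ((C i' ∩ nb G x).card : ℝ) ≤ δ * (C i).card * (C i').card
  inj : ∀ i < j, ∀ i' < j, φ i = φ i' → i = i'
  adj : ∀ i < j, ∀ i' < j, i < i' → (G.Adj (φ i) (φ i') ↔ p i' = i)

theorem card_union5 (a b c d e : Finset V) :
    (((a ∪ b ∪ c ∪ d ∪ e).card : ℕ) : ℝ) ≤ a.card + b.card + c.card + d.card + e.card := by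
  have h3 := card_union_le (a ∪ b ∪ c ∪ d) e
  have h4 := card_union_le (a ∪ b ∪ c) d
  have h5 := card_union_le (a ∪ b) c
  have h6 := card_union_le a b
  have : (a ∪ b ∪ c ∪ d ∪ e).card ≤ a.card + b.card + c.card + d.card + e.card := by omega
  exact_mod_cast this

theorem ext (hR : S_R) {G : SimpleGraph V} {b : ℝ} (hb : 0 < b) {k : ℕ}
    (hfree : G.CliqueFree k) (hk : 1 ≤ k) {p : ℕ → ℕ} (hp : ∀ i, 0 < i → p i < i) {h : ℕ}
    {B δ δ' : ℝ} (hB : 0 < B) (hBb : B ≤ b) (hδ : 0 < δ) (hδδ : δ ≤ δ') {j : ℕ} (hj : 0 < j)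
    (hjh : j < h)
    (hX : j * (1 / B + δ + 1 / (B * δ') + δ / δ' + 1 / (B * δ')) ≤ 1 / 2)
    {φ : ℕ → V} {C : ℕ → Finset V} {l : ℕ → ℕ}
    (H : Cf G b p h B δ j φ C l) :
    ∃ (φ' : ℕ → V) (C' : ℕ → Finset V) (l' : ℕ → ℕ),
      Cf G b p h (B / (2 * k)) (2 * k * δ') (j + 1) φ' C' l' := by
  obtain ⟨R1, R2, -, R4⟩ := hR V G b hb
  obtain ⟨r, hr⟩ : ∃ r : ℕ, r = p j := ⟨_, rfl⟩
  have hrj : r < j := by rw [hr]; exact hp j hj
  have hk1 : (1 : ℝ) ≤ k := by exact_mod_cast hk
  have hk0 : (0 : ℝ) < k := by linarith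
  have hδ' : 0 < δ' := lt_of_lt_of_le hδ hδδ
  have hlr : 0 < l r := by
    have := H.hl r hrj
    omega
  obtain ⟨q, hq⟩ : ∃ q, l r = q + 1 := ⟨l r - 1, by omega⟩
  have hRr := H.rich r hrj
  rw [hq] at hRr
  obtain ⟨P, hP1, hP2⟩ := hRr.2
  have hBr : B ≤ ((C r).card : ℝ) := R4 q B (φ r) (C r) hB (H.ne r hrj) hRr
  have hCpos : ∀ i < j, (0 : ℝ) < (C i).card := fun i hi => by
    exact_mod_cast card_pos.2 (H.ne i hi)
  have hPpos : ∀ y ∈ C r, (0 : ℝ) < (P y).card := fun y hy => by
    exact_mod_cast card_pos.2 (hP1 y hy).1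
  obtain ⟨A, hA⟩ : ∃ A : ℝ, A = ((C r).card : ℝ) := ⟨_, rfl⟩
  have hA0 : 0 < A := by rw [hA]; exact hCpos r hrj
  rw [← hA] at hBr
  -- the bad sets
  obtain ⟨b1, hb1⟩ : ∃ b1 : ℕ → Finset V, b1 = fun i => if i = r then ∅ else C r ∩ nb G (φ i) :=
    ⟨_, rfl⟩
  obtain ⟨b2, hb2⟩ : ∃ b2 : ℕ → Finset V, b2 = fun i =>
      (C r).filter (fun y => δ' < ((P y ∩ nb G (φ i)).card : ℝ) / ((P y).card : ℝ)) := ⟨_, rfl⟩
  obtain ⟨b3, hb3⟩ : ∃ b3 : ℕ → Finset V, b3 = fun i => if i = r then ∅ else
      (C r).filter (fun y => δ' * (C i).card < ((C i ∩ nb G y).card : ℝ)) := ⟨_, rfl⟩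
  obtain ⟨b4, hb4⟩ : ∃ b4 : ℕ → Finset V, b4 = fun i =>
      (C r).filter (fun y => δ' * (C i).card <
        ∑ x ∈ C i, ((P y ∩ nb G x).card : ℝ) / ((P y).card : ℝ)) := ⟨_, rfl⟩
  have c1 : ∀ i < j, ((b1 i).card : ℝ) ≤ δ * A := by
    intro i hi
    rw [hb1]
    dsimp only
    split_ifs with hir
    · simp
      positivity
    · rw [hA]
      exact H.f2 r hrj i hi (Ne.symm hir)
  have c2 : ∀ i < j, ((b2 i).card : ℝ) ≤ (A / B) / δ' := by
    intro i hi
    rw [hb2]
    dsimp only
    apply few (fun y => by positivity) hδ'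
    rw [hA]
    exact hP2 (φ i)
  have c3 : ∀ i < j, ((b3 i).card : ℝ) ≤ (δ * A * (C i).card) / (δ' * (C i).card) := by
    intro i hi
    have := hCpos i hi
    rw [hb3]
    dsimp only
    split_ifs with hir
    · simp
      positivity
    · apply few (fun y => Nat.cast_nonneg _) (by positivity)
      rw [hA]
      exact H.f3 r hrj i hi (Ne.symm hir)
  have c4 : ∀ i < j, ((b4 i).card : ℝ) ≤ ((C i).card * (A / B)) / (δ' * (C i).card) := by
    intro i hi
    have := hCpos i hi
    rw [hb4]
    dsimp only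
    apply few (fun y => sum_nonneg fun x _ => by positivity) (by positivity)
    rw [sum_comm]
    calc ∑ x ∈ C i, ∑ y ∈ C r, ((P y ∩ nb G x).card : ℝ) / ((P y).card : ℝ)
        ≤ ∑ x ∈ C i, A / B := sum_le_sum fun x _ => by rw [hA]; exact hP2 x
      _ = (C i).card * (A / B) := by rw [sum_const, nsmul_eq_mul]
  obtain ⟨BB, hBB⟩ : ∃ BB : ℕ → Finset V, BB = fun i => {φ i} ∪ b1 i ∪ b2 i ∪ b3 i ∪ b4 i :=
    ⟨_, rfl⟩
  obtain ⟨E, hE⟩ : ∃ E : Finset V, E = (range j).biUnion BB := ⟨_, rfl⟩
  have hEc : (E.card : ℝ) ≤ A / 2 := by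
    rw [hE]
    have h9 : (j : ℝ) * (A * (1 / B + δ + 1 / (B * δ') + δ / δ' + 1 / (B * δ'))) ≤ A / 2 := by
      have := mul_le_mul_of_nonneg_left hX hA0.le
      calc (j : ℝ) * (A * (1 / B + δ + 1 / (B * δ') + δ / δ' + 1 / (B * δ')))
          = A * (j * (1 / B + δ + 1 / (B * δ') + δ / δ' + 1 / (B * δ'))) := by ring
        _ ≤ A * (1 / 2) := this
        _ = A / 2 := by ring
    refine le_trans (mul_few (A := A * (1 / B + δ + 1 / (B * δ') + δ / δ' + 1 / (B * δ'))) ?_) h9
    intro i hi
    rw [hBB]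
    dsimp only
    refine (card_union5 _ _ _ _ _).trans ?_
    have e0 : (1 : ℝ) ≤ A * (1 / B) := by
      rw [mul_one_div, le_div_iff₀ hB]
      linarith
    have e1 := c1 i hi
    have e2 := c2 i hi
    have e3 := c3 i hi
    have e4 := c4 i hi
    have hci := hCpos i hi
    have e2' : A / B / δ' = A * (1 / (B * δ')) := by
      field_simp
    have e3' : (δ * A * (C i).card) / (δ' * (C i).card) = A * (δ / δ') := by
      field_simp
    have e4' : ((C i).card * (A / B)) / (δ' * (C i).card) = A * (1 / (B * δ')) := by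
      field_simp
    rw [e2'] at e2
    rw [e3'] at e3
    rw [e4'] at e4
    rw [card_singleton, Nat.cast_one]
    have : A * (1 / B + δ + 1 / (B * δ') + δ / δ' + 1 / (B * δ')) =
      A * (1 / B) + δ * A + A * (1 / (B * δ')) + A * (δ / δ') + A * (1 / (B * δ')) := by ring
    rw [this]
    linarith
  obtain ⟨S, hS⟩ : ∃ S : Finset V, S = C r \ E := ⟨_, rfl⟩
  have hSc : A / 2 ≤ (S.card : ℝ) := by
    have h5 : (C r).card ≤ S.card + E.card := by
      rw [hS]
      have := le_card_sdiff E (C r)
      omega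
    have h6 : ((C r).card : ℝ) ≤ S.card + E.card := by exact_mod_cast h5
    rw [← hA] at h6
    linarith
  have hSn : S.Nonempty := by
    rw [← card_pos]
    have : (0 : ℝ) < S.card := by linarith
    exact_mod_cast this
  obtain ⟨y, hyS, hyc⟩ := non_nb k S hSn (fun T _ => hfree T)
  have hyC : y ∈ C r := by
    rw [hS, mem_sdiff] at hyS
    exact hyS.1
  have hyE : ∀ i < j, y ∉ BB i := by
    intro i hi hyB
    rw [hS, mem_sdiff, hE, mem_biUnion] at hyS
    exact hyS.2 ⟨i, mem_range.2 hi, hyB⟩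
  have hy : ∀ i < j, y ≠ φ i ∧ y ∉ b1 i ∧ y ∉ b2 i ∧ y ∉ b3 i ∧ y ∉ b4 i := by
    intro i hi
    have := hyE i hi
    rw [hBB] at this
    simp only [mem_union, mem_singleton, not_or] at this
    obtain ⟨⟨⟨⟨d0, d1⟩, d2⟩, d3⟩, d4⟩ := this
    exact ⟨d0, d1, d2, d3, d4⟩
  have hadj : G.Adj (φ r) y := mem_nb.1 (rich_sub hRr hyC)
  have hPy := hPpos y hyC
  -- facts about the new vertex
  have a1 : ∀ i < j, i ≠ r → ¬ G.Adj (φ i) y := by
    intro i hi hir hA
    apply (hy i hi).2.1
    rw [hb1]
    dsimp only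
    rw [if_neg hir, mem_inter, mem_nb]
    exact ⟨hyC, hA⟩
  have a2 : ∀ i < j, ((P y ∩ nb G (φ i)).card : ℝ) ≤ δ' * (P y).card := by
    intro i hi
    have := (hy i hi).2.2.1
    rw [hb2] at this
    dsimp only at this
    rw [mem_filter, not_and, not_lt] at this
    have h5 := this hyC
    rwa [div_le_iff₀ hPy] at h5
  have a3 : ∀ i < j, i ≠ r → ((C i ∩ nb G y).card : ℝ) ≤ δ' * (C i).card := by
    intro i hi hir
    have := (hy i hi).2.2.2.1
    rw [hb3] at this
    dsimp only at this
    rw [if_neg hir, mem_filter, not_and, not_lt] at this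
    exact this hyC
  have a4 : ∀ i < j, ∑ x ∈ C i, ((P y ∩ nb G x).card : ℝ) ≤ δ' * (P y).card * (C i).card := by
    intro i hi
    have := (hy i hi).2.2.2.2
    rw [hb4] at this
    dsimp only at this
    rw [mem_filter, not_and, not_lt] at this
    have h5 := this hyC
    rw [← sum_div, div_le_iff₀ hPy] at h5
    linarith
  -- the new configuration
  obtain ⟨φ', hφd⟩ : ∃ φ' : ℕ → V, φ' = Function.update φ j y := ⟨_, rfl⟩
  obtain ⟨C', hCd⟩ : ∃ C' : ℕ → Finset V,
    C' = Function.update (Function.update C r (S \ nb G y)) j (P y) := ⟨_, rfl⟩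
  obtain ⟨l', hld⟩ : ∃ l' : ℕ → ℕ, l' = Function.update l j q := ⟨_, rfl⟩
  have φj : φ' j = y := by rw [hφd]; exact Function.update_self _ _ _
  have φi : ∀ i < j, φ' i = φ i := by
    intro i hi
    rw [hφd]
    exact Function.update_of_ne (by omega) _ _
  have Cj : C' j = P y := by rw [hCd]; exact Function.update_self _ _ _
  have Cr : C' r = S \ nb G y := by
    rw [hCd, Function.update_of_ne (by omega)]
    exact Function.update_self _ _ _
  have Ci : ∀ i < j, i ≠ r → C' i = C i := by
    intro i hi hir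
    rw [hCd, Function.update_of_ne (by omega), Function.update_of_ne hir]
  have Cs : ∀ i < j, C' i ⊆ C i := by
    intro i hi
    by_cases hir : i = r
    · rw [hir, Cr]
      intro x hx
      rw [mem_sdiff, hS, mem_sdiff] at hx
      exact hx.1.1
    · rw [Ci i hi hir]
  have lj : l' j = q := by rw [hld]; exact Function.update_self _ _ _
  have li : ∀ i < j, l' i = l i := by
    intro i hi
    rw [hld]
    exact Function.update_of_ne (by omega) _ _
  have hlt : ∀ i, i < j + 1 → i < j ∨ i = j := by intro i hi; omega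
  have hCr2 : ((C r).card : ℝ) ≤ 2 * k * (C' r).card := by
    rw [← hA, Cr]
    have h5 : (S.card : ℝ) ≤ k * ((S \ nb G y).card : ℝ) := by exact_mod_cast hyc
    nlinarith
  have hC2 : ∀ i < j, ((C i).card : ℝ) ≤ 2 * k * (C' i).card := by
    intro i hi
    by_cases hir : i = r
    · rw [hir]
      exact hCr2
    · rw [Ci i hi hir]
      have := hCpos i hi
      nlinarith
  have hB2 : B / (2 * k) ≤ B := div_le_self hB.le (by linarith)
  have hB20 : 0 < B / (2 * k) := by positivity
  have h2k : δ' ≤ 2 * k * δ' := by nlinarith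
  refine ⟨φ', C', l', ?_, ?_, ?_, ?_, ?_, ?_, ?_⟩
  · -- ne
    intro i hi
    rcases hlt i hi with hi | rfl
    · rw [← card_pos]
      have h5 := hC2 i hi
      have h6 := hCpos i hi
      have h7 : (0 : ℝ) < (C' i).card := by
        by_contra hcon
        push Not at hcon
        nlinarith
      exact_mod_cast h7
    · rw [Cj]
      exact (hP1 y hyC).1
  · -- rich
    intro i hi
    rcases hlt i hi with hi | rfl
    · rw [φi i hi, li i hi]
      by_cases hir : i = r
      · have h5 := R2 (l r) B (1 / (2 * k)) (φ r) (C r) (C' r) hB (by positivity) (Cs r hrj) (by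
          rw [one_div, inv_mul_le_iff₀ (by positivity)]
          exact hCr2) (H.rich r hrj)
        rw [hir]
        have h6 : 1 / (2 * (k : ℝ)) * B = B / (2 * k) := by ring
        rw [h6] at h5
        exact h5
      · rw [Ci i hi hir]
        exact R1 (l i) B (B / (2 * k)) (φ i) (C i) hB20 hB2 (H.rich i hi)
    · rw [Cj, φj, lj]
      exact R1 q b (B / (2 * k)) y (P y) hB20 (hB2.trans hBb) (hP1 y hyC).2
  · -- hl
    intro i hi
    rcases hlt i hi with hi | rfl
    · rw [li i hi]
      exact H.hl i hi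
    · rw [lj]
      have := H.hl r hrj
      omega
  · -- f2
    intro i hi i' hi' hne
    rcases hlt i hi with hi | rfl
    · rcases hlt i' hi' with hi' | rfl
      · rw [φi i' hi']
        have h5 : ((C' i ∩ nb G (φ i')).card : ℝ) ≤ ((C i ∩ nb G (φ i')).card : ℝ) := by
          exact_mod_cast card_le_card (inter_subset_inter_right (Cs i hi))
        have h6 := H.f2 i hi i' hi' hne
        have h7 := hC2 i hi
        have h8 := hCpos i hi
        have h9 : δ * ((C i).card : ℝ) ≤ δ' * (2 * k * (C' i).card) :=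
          mul_le_mul hδδ h7 h8.le hδ'.le
        linarith
      · rw [φj]
        by_cases hir : i = r
        · rw [hir, Cr]
          have : (S \ nb G y) ∩ nb G y = ∅ := by
            ext x
            simp
          rw [this]
          simp
          positivity
        · rw [Ci i hi hir]
          have h5 := a3 i hi hir
          have h8 := hCpos i hi
          nlinarith
    · rcases hlt i' hi' with hi' | rfl
      · rw [Cj, φi i' hi']
        have h5 := a2 i' hi'
        nlinarith
      · exact absurd rfl hne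
  · -- f3
    intro i hi i' hi' hne
    rcases hlt i hi with hi | rfl
    · rcases hlt i' hi' with hi' | rfl
      · have h5 : ∑ x ∈ C' i, ((C' i' ∩ nb G x).card : ℝ) ≤
            ∑ x ∈ C i, ((C i' ∩ nb G x).card : ℝ) := by
          refine le_trans (sum_le_sum_of_subset_of_nonneg (Cs i hi) fun a _ _ =>
            Nat.cast_nonneg _) ?_
          refine sum_le_sum fun x _ => ?_
          exact_mod_cast card_le_card (inter_subset_inter_right (Cs i' hi'))
        have h6 := H.f3 i hi i' hi' hne
        refine (h5.trans h6).trans ?_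
        have p1 := hCpos i hi
        have p2 := hCpos i' hi'
        by_cases hir : i = r
        · have hir' : i' ≠ r := fun h => hne (hir.trans h.symm)
          rw [Ci i' hi' hir']
          have h7 := hC2 i hi
          have h9 : δ * ((C i).card : ℝ) ≤ δ' * (2 * k * (C' i).card) :=
            mul_le_mul hδδ h7 p1.le hδ'.le
          have h10 := mul_le_mul_of_nonneg_right h9 p2.le
          linarith
        · rw [Ci i hi hir]
          have h7 := hC2 i' hi'
          have h9 : δ * ((C i').card : ℝ) ≤ δ' * (2 * k * (C' i').card) :=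
            mul_le_mul hδδ h7 p2.le hδ'.le
          have h10 := mul_le_mul_of_nonneg_right h9 p1.le
          linarith
      · rw [Cj]
        refine le_trans (sum_le_sum_of_subset_of_nonneg (Cs i hi) fun a _ _ =>
          Nat.cast_nonneg _) ?_
        have h5 := a4 i hi
        have h7 := hC2 i hi
        have h9 : δ' * ((P y).card : ℝ) * (C i).card ≤ δ' * (P y).card * (2 * k * (C' i).card) :=
          mul_le_mul_of_nonneg_left h7 (by positivity)
        linarith
    · rcases hlt i' hi' with hi' | rfl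
      · rw [Cj, sum_inter_nb]
        refine le_trans (sum_le_sum_of_subset_of_nonneg (Cs i' hi') fun a _ _ =>
          Nat.cast_nonneg _) ?_
        have h5 := a4 i' hi'
        have h7 := hC2 i' hi'
        have h9 : δ' * ((P y).card : ℝ) * (C i').card ≤ δ' * (P y).card * (2 * k * (C' i').card) :=
          mul_le_mul_of_nonneg_left h7 (by positivity)
        linarith
      · exact absurd rfl hne
  · -- inj
    intro i hi i' hi' heq
    rcases hlt i hi with hi | rfl
    · rcases hlt i' hi' with hi' | rfl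
      · rw [φi i hi, φi i' hi'] at heq
        exact H.inj i hi i' hi' heq
      · rw [φi i hi, φj] at heq
        exact absurd heq.symm (hy i hi).1
    · rcases hlt i' hi' with hi' | rfl
      · rw [φi i' hi', φj] at heq
        exact absurd heq (hy i' hi').1
      · rfl
  · -- adj
    intro i hi i' hi' hii
    rcases hlt i' hi' with hi' | rfl
    · have hi2 : i < j := by omega
      rw [φi i hi2, φi i' hi']
      exact H.adj i hi2 i' hi' hii
    · rw [φi i hii, φj, ← hr]
      constructor
      · intro hA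
        by_contra hne
        exact a1 i hii (Ne.symm hne) hA
      · intro h5
        rw [← h5]
        exact hadj

theorem t_EMB : S_R → S_EMB := by
  intro hR n k T hk hT
  have hk1 : (1 : ℝ) ≤ k := by exact_mod_cast hk
  obtain ⟨A, hA⟩ : ∃ A : ℝ, A = 16 * k * (n + 1) := ⟨_, rfl⟩
  have hn0 : (0 : ℝ) ≤ n := Nat.cast_nonneg n
  have hA1 : (1 : ℝ) ≤ A := by rw [hA]; nlinarith
  have hA0 : (0 : ℝ) < A := by linarith
  have hAN : 16 * ((n : ℝ) + 1) ≤ A := by rw [hA]; nlinarith
  have hAk : 2 * (k : ℝ) ≤ A := by rw [hA]; nlinarith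
  refine ⟨A ^ (3 * n + 6), one_le_pow₀ hA1, ?_⟩
  intro b hb V _ G hfree v C hC hrich
  have hb0 : 0 < b := lt_of_lt_of_le (by positivity) hb
  obtain ⟨e, p, he1, he2, hp0, hp, hadj⟩ := order n (Fin (n + 1)) T hT (Fintype.card_fin _)
  have main : ∀ j : ℕ, j ≤ n → ∃ (φ : ℕ → V) (C : ℕ → Finset V) (l : ℕ → ℕ),
      Cf G b p (n + 1) (b / (2 * k) ^ j) (A ^ j / A ^ (n + 2)) (j + 1) φ C l := by
    intro j
    induction j with
    | zero =>
      intro _
      refine ⟨fun _ => v, fun _ => C, fun _ => n + 1, ?_, ?_, ?_, ?_, ?_, ?_, ?_⟩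
      · intro i _
        exact hC
      · intro i _
        rw [pow_zero, div_one]
        exact hrich
      · intro i _
        omega
      · intro i hi i' hi' hne
        omega
      · intro i hi i' hi' hne
        omega
      · intro i hi i' hi' _
        omega
      · intro i hi i' hi' hne
        omega
    | succ j ih =>
      intro hj
      obtain ⟨φ, C, l, H⟩ := ih (by omega)
      have hpow : (0 : ℝ) < (2 * k) ^ j := by positivity
      have hpow1 : (1 : ℝ) ≤ (2 * k) ^ j := one_le_pow₀ (by linarith)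
      have hpow2 : (2 * (k : ℝ)) ^ j ≤ A ^ n :=
        (pow_le_pow_left₀ (by positivity) hAk j).trans (pow_le_pow_right₀ hA1 (by omega))
      obtain ⟨B, hBd⟩ : ∃ B : ℝ, B = b / (2 * k) ^ j := ⟨_, rfl⟩
      obtain ⟨δ, hδd⟩ : ∃ δ : ℝ, δ = A ^ j / A ^ (n + 2) := ⟨_, rfl⟩
      rw [← hBd, ← hδd] at H
      have hB1 : A ^ (2 * n + 6) ≤ B := by
        rw [hBd, le_div_iff₀ hpow]
        calc A ^ (2 * n + 6) * (2 * k) ^ j ≤ A ^ (2 * n + 6) * A ^ n :=
              mul_le_mul_of_nonneg_left hpow2 (by positivity)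
          _ = A ^ (3 * n + 6) := by rw [← pow_add]; congr 1; omega
          _ ≤ b := hb
      have hB0 : 0 < B := lt_of_lt_of_le (by positivity) hB1
      have hBA : A ≤ B := by
        refine le_trans ?_ hB1
        calc A = A ^ 1 := (pow_one A).symm
          _ ≤ A ^ (2 * n + 6) := pow_le_pow_right₀ hA1 (by omega)
      have hδ0 : 0 < δ := by rw [hδd]; positivity
      have hδ1 : δ * A ≤ 1 := by
        rw [hδd, div_mul_eq_mul_div, div_le_one (by positivity), ← pow_succ]
        exact pow_le_pow_right₀ hA1 (by omega)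
      have hδ2 : 1 ≤ δ * A ^ (n + 2) := by
        rw [hδd, div_mul_cancel₀ _ (by positivity)]
        exact one_le_pow₀ hA1
      have hBδ : A ≤ B * δ := by
        have h1 : A ^ (n + 4) ≤ B * δ := by
          calc A ^ (n + 4) ≤ A ^ (n + 4) * (δ * A ^ (n + 2)) :=
                le_mul_of_one_le_right (by positivity) hδ2
            _ = A ^ (2 * n + 6) * δ := by
                have : A ^ (2 * n + 6) = A ^ (n + 4) * A ^ (n + 2) := by
                  rw [← pow_add]; congr 1; omega
                rw [this]; ring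
            _ ≤ B * δ := mul_le_mul_of_nonneg_right hB1 hδ0.le
        refine le_trans ?_ h1
        calc A = A ^ 1 := (pow_one A).symm
          _ ≤ A ^ (n + 4) := pow_le_pow_right₀ hA1 (by omega)
      have hj' : ((j + 1 : ℕ) : ℝ) ≤ (n : ℝ) + 1 := by
        have : (j + 1 : ℕ) ≤ n + 1 := by omega
        exact_mod_cast this
      have hN0 : (0 : ℝ) < (n : ℝ) + 1 := by positivity
      have h5 := ext hR hb0 hfree hk hp (h := n + 1) (B := B) (δ := δ)
        (δ' := 8 * (n + 1) * δ) hB0 (by rw [hBd]; exact div_le_self hb0.le hpow1) hδ0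
        (by nlinarith) (j := j + 1) (by omega) (by omega) (by
          have t1 : 1 / B ≤ 1 / (16 * ((n : ℝ) + 1)) :=
            one_div_le_one_div_of_le (by positivity) (hAN.trans hBA)
          have t2 : δ ≤ 1 / (16 * ((n : ℝ) + 1)) := by
            rw [le_div_iff₀ (by positivity)]
            nlinarith
          have t3 : 1 / (B * (8 * (n + 1) * δ)) ≤ 1 / (16 * ((n : ℝ) + 1)) := by
            apply one_div_le_one_div_of_le (by positivity)
            have : B * (8 * (n + 1) * δ) = (8 * (n + 1)) * (B * δ) := by ring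
            rw [this]
            nlinarith
          have t4 : δ / (8 * (n + 1) * δ) = 1 / (8 * ((n : ℝ) + 1)) := by
            field_simp
          have t5 : 1 / B + δ + 1 / (B * (8 * (n + 1) * δ)) + δ / (8 * (n + 1) * δ) +
              1 / (B * (8 * (n + 1) * δ)) ≤ 6 / (16 * ((n : ℝ) + 1)) := by
            rw [t4]
            have : (6 : ℝ) / (16 * ((n : ℝ) + 1)) = 1 / (16 * ((n : ℝ) + 1)) +
              1 / (16 * ((n : ℝ) + 1)) + 1 / (16 * ((n : ℝ) + 1)) + 1 / (8 * ((n : ℝ) + 1)) +
              1 / (16 * ((n : ℝ) + 1)) := by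
              field_simp
              norm_num
            rw [this]
            linarith
          calc ((j + 1 : ℕ) : ℝ) * (1 / B + δ + 1 / (B * (8 * (n + 1) * δ)) +
                δ / (8 * (n + 1) * δ) + 1 / (B * (8 * (n + 1) * δ)))
              ≤ ((n : ℝ) + 1) * (6 / (16 * ((n : ℝ) + 1))) :=
                mul_le_mul hj' t5 (by positivity) hN0.le
            _ = 6 / 16 := by field_simp
            _ ≤ 1 / 2 := by norm_num) H
      have h6 : B / (2 * k) = b / (2 * k) ^ (j + 1) := by
        rw [hBd, pow_succ, div_div]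
      have h7 : 2 * k * (8 * (n + 1) * δ) = A ^ (j + 1) / A ^ (n + 2) := by
        rw [hδd, pow_succ]
        rw [mul_div_assoc', mul_div_assoc']
        congr 1
        rw [hA]
        ring
      rw [h6, h7] at h5
      exact h5
  obtain ⟨φ, C, l, H⟩ := main n le_rfl
  refine ⟨{ toFun := fun a => φ (e a), inj' := ?_, map_rel_iff' := ?_ }⟩
  · intro a b hab
    exact he1 (H.inj _ (he2 a) _ (he2 b) hab)
  · intro a b
    change G.Adj (φ (e a)) (φ (e b)) ↔ T.Adj a b
    rcases lt_trichotomy (e a) (e b) with hlt | heq | hgt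
    · rw [H.adj _ (he2 a) _ (he2 b) hlt]
      exact (hadj a b hlt).symm
    · have hab := he1 heq
      subst hab
      exact ⟨fun h => absurd h (G.irrefl), fun h => absurd h (T.irrefl)⟩
    · rw [G.adj_comm, T.adj_comm, H.adj _ (he2 b) _ (he2 a) hgt]
      exact (hadj b a hgt).symm

end Pool.Agent.U750.NL
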